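import Pool.Agent.H93.SC.Targets

/-! G2e, G2s, G2r, G2f (helper56): invariance properties of the index. -/

open SC

namespace Pool.Agent.H56.SC

theorem g2e (hg2 : T_G2) : T_G2e := by
  intro k K J _ _ _ _ S
  haveI : IsEmpty (Var S) := ⟨fun x => IsEmpty.false x.1⟩
  let U : Var S → K := fun _ => 0
  have hgen : IsGen S U := by
    refine ⟨fun j => isEmptyElim j, fun i0 _ => ?_, ?_⟩
    · rw [algebraicIndependent_empty_type_iff]
      exact (algebraMap K K).injective
    · rw [eq_top_iff]
      intro x _
      exact (IntermediateField.adjoin K (Set.range U)).algebraMap_mem x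
  obtain ⟨h1, -⟩ := hg2 k K J K S U (fun j => isEmptyElim j) hgen
  rw [h1 (by
    rw [algebraicIndependent_empty_type_iff]
    exact (algebraMap k K).injective)]
  have h2 : kU k U = ⊥ := by
    have h3 : Set.range U = ∅ := Set.range_eq_empty U
    unfold kU
    rw [h3, IntermediateField.adjoin_empty]
  rw [h2]
  exact IntermediateField.finrank_bot'

theorem g2s (hg2 : T_G2) (hg1a : T_G1a) : T_G2s := by
  intro k K J _ _ _ _ S c hS hc
  have hU := hg1a K J S hS
  have hU' : IsGen (L := Gen S) (fun j => (S j).map (fun x => c j * x)) (genU S) := by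
    refine ⟨fun j => ?_, fun i0 h0 => ?_, hU.gen⟩
    · have h1 := hU.rel j
      change ∑ i : Fin (S j).r, algebraMap K (Gen S) (c j * (S j).s i) * genU S ⟨j, i⟩ = 0
      have h2 : ∑ i : Fin (S j).r, algebraMap K (Gen S) (c j * (S j).s i) * genU S ⟨j, i⟩ =
          algebraMap K (Gen S) (c j) *
            ∑ i : Fin (S j).r, algebraMap K (Gen S) ((S j).s i) * genU S ⟨j, i⟩ := by
        rw [Finset.mul_sum]
        refine Finset.sum_congr rfl fun i _ => ?_
        rw [map_mul, mul_assoc]
      rw [h2, h1, mul_zero]
    · exact hU.indep i0 fun j => right_ne_zero_of_mul (h0 j)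
  have hS' : ∀ j, ((S j).map (fun x => c j * x)).Nz := by
    intro j
    obtain ⟨i, hi⟩ := hS j
    exact ⟨i, mul_ne_zero (hc j) hi⟩
  obtain ⟨h1, h2⟩ := hg2 k K J (Gen S) S (genU S) hS hU
  obtain ⟨h3, h4⟩ := hg2 k K J (Gen S) (fun j => (S j).map (fun x => c j * x)) (genU S) hS' hU'
  by_cases h : AlgebraicIndependent k (genU S)
  · rw [h1 h]
    exact h3 h
  · rw [h2 h]
    exact h4 h

/-- reindexing the variables -/
def rVar {K J J' : Type} [Field K] (S : J → Sys K) (e : J' ≃ J) :
    Var (fun j => S (e j)) ≃ Var S := Equiv.sigmaCongrLeft (β := fun j => Fin (S j).r) e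

theorem g2r (hg2 : T_G2) (hg1a : T_G1a) (hg1c : T_G1c) : T_G2r := by
  intro k K J J' _ _ _ _ _ S e hS
  have hU := hg1a K J S hS
  let U' : Var (fun j => S (e j)) → Gen S := genU S ∘ rVar S e
  have hrange : Set.range U' = Set.range (genU S) := (rVar S e).surjective.range_comp (genU S)
  choose i0 hi0 using hS
  have hU' : IsGen (fun j => S (e j)) U' := by
    refine hg1c K J' (Gen S) _ U' (fun j => i0 (e j)) (fun j => hi0 (e j)) (fun j => ?_) ?_ ?_
    · exact hU.rel (e j)
    · have h1 := hU.indep i0 hi0
      let m : {x : Var (fun j => S (e j)) // x.2 ≠ i0 (e x.1)} → {x : Var S // x.2 ≠ i0 x.1} :=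
        fun x => ⟨rVar S e x.1, x.2⟩
      have hm : Function.Injective m := by
        intro x y hxy
        exact Subtype.ext ((rVar S e).injective (congrArg Subtype.val hxy))
      exact h1.comp m hm
    · rw [hrange]
      exact hU.gen
  obtain ⟨h1, h2⟩ := hg2 k K J (Gen S) S (genU S) (fun j => ⟨i0 j, hi0 j⟩) hU
  obtain ⟨h3, h4⟩ := hg2 k K J' (Gen S) (fun j => S (e j)) U'
    (fun j => ⟨i0 (e j), hi0 (e j)⟩) hU'
  have hiff : AlgebraicIndependent k U' ↔ AlgebraicIndependent k (genU S) :=
    algebraicIndependent_equiv (rVar S e)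
  by_cases h : AlgebraicIndependent k (genU S)
  · rw [h1 h, h3 (hiff.2 h)]
    unfold kU
    rw [hrange]
  · rw [h2 h, h4 (fun h' => h (hiff.1 h'))]

theorem g2f (hg2 : T_G2) (hg1a : T_G1a) : T_G2f := by
  intro k K k' K' J _ _ _ _ _ _ _ σ τ hc S hS
  have hU := hg1a K J S hS
  -- the algebra structures on `Gen S`
  letI alg' : Algebra K' (Gen S) := ((algebraMap K (Gen S)).comp (τ.symm : K' →+* K)).toAlgebra
  letI alg'' : Algebra k' (Gen S) := ((algebraMap k (Gen S)).comp (σ.symm : k' →+* k)).toAlgebra
  have ha' : ∀ x : K', algebraMap K' (Gen S) x = algebraMap K (Gen S) (τ.symm x) := fun _ => rfl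
  have ha'' : ∀ x : k', algebraMap k' (Gen S) x = algebraMap k (Gen S) (σ.symm x) := fun _ => rfl
  haveI : IsScalarTower k' K' (Gen S) := by
    refine IsScalarTower.of_algebraMap_eq fun x => ?_
    rw [ha', ha'']
    have h1 : τ.symm (algebraMap k' K' x) = algebraMap k K (σ.symm x) := by
      rw [RingEquiv.symm_apply_eq, hc, RingEquiv.apply_symm_apply]
    rw [h1, ← IsScalarTower.algebraMap_apply k K (Gen S)]
  have hU' : IsGen (L := Gen S) (fun j => (S j).map τ) (genU S) := by
    refine ⟨fun j => ?_, fun i0 h0 => ?_, ?_⟩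
    · have h1 := hU.rel j
      change ∑ i : Fin (S j).r, algebraMap K' (Gen S) (τ ((S j).s i)) * genU S ⟨j, i⟩ = 0
      rw [← h1]
      refine Finset.sum_congr rfl fun i _ => ?_
      rw [ha', RingEquiv.symm_apply_apply]
    · have h1 := hU.indep i0 fun j hz => h0 j (by
        change τ ((S j).s (i0 j)) = 0
        rw [hz, map_zero])
      have h2 := (algebraicIndependent_ringHom_iff_of_comp_eq (R := K) (A := Gen S)
        (x := fun x : {x : Var S // x.2 ≠ i0 x.1} => genU S x.1)
        (S := K') (B := Gen S) τ (RingHom.id (Gen S)) Function.injective_id (by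
          ext x
          change algebraMap K' (Gen S) (τ x) = algebraMap K (Gen S) x
          rw [ha', RingEquiv.symm_apply_apply])).2 h1
      exact h2
    · rw [eq_top_iff]
      intro x _
      have h1 : x ∈ IntermediateField.adjoin K (Set.range (genU S)) := by
        rw [hU.gen]
        trivial
      refine IntermediateField.adjoin_induction K (p := fun x _ =>
        x ∈ IntermediateField.adjoin K' (Set.range (genU S))) ?_ ?_ ?_ ?_ ?_ h1
      · intro y hy
        exact IntermediateField.subset_adjoin _ _ hy
      · intro y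
        have h2 : algebraMap K (Gen S) y = algebraMap K' (Gen S) (τ y) := by
          rw [ha', RingEquiv.symm_apply_apply]
        rw [h2]
        exact (IntermediateField.adjoin K' (Set.range (genU S))).algebraMap_mem _
      · intro y z _ _ hy hz
        exact add_mem hy hz
      · intro y _ hy
        exact inv_mem hy
      · intro y z _ _ hy hz
        exact mul_mem hy hz
  have hS' : ∀ j, ((S j).map τ).Nz := by
    intro j
    obtain ⟨i, hi⟩ := hS j
    refine ⟨i, ?_⟩
    change τ ((S j).s i) ≠ 0
    rwa [Ne, map_eq_zero_iff τ τ.injective]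
  obtain ⟨h1, h2⟩ := hg2 k K J (Gen S) S (genU S) hS hU
  obtain ⟨h3, h4⟩ := hg2 k' K' J (Gen S) (fun j => (S j).map τ) (genU S) hS' hU'
  have hiff : AlgebraicIndependent k' (genU S) ↔ AlgebraicIndependent k (genU S) :=
    algebraicIndependent_ringHom_iff_of_comp_eq (R := k) (A := Gen S) (x := genU S)
      (S := k') (B := Gen S) σ (RingHom.id (Gen S)) Function.injective_id (by
        ext x
        change algebraMap k' (Gen S) (σ x) = algebraMap k (Gen S) x
        rw [ha'', RingEquiv.symm_apply_apply])
  by_cases h : AlgebraicIndependent k (genU S)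
  · rw [h1 h]
    refine (h3 (hiff.2 h)).trans ?_
    -- the same subfield
    have hmem : ∀ x : Gen S, x ∈ kU k' (genU S) ↔ x ∈ kU k (genU S) := by
      intro x
      constructor
      · intro hx
        refine IntermediateField.adjoin_induction k' (p := fun x _ => x ∈ kU k (genU S))
          ?_ ?_ ?_ ?_ ?_ hx
        · intro y hy
          exact IntermediateField.subset_adjoin _ _ hy
        · intro y
          rw [ha'']
          exact (kU k (genU S)).algebraMap_mem _
        · intro y z _ _ hy hz
          exact add_mem hy hz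
        · intro y _ hy
          exact inv_mem hy
        · intro y z _ _ hy hz
          exact mul_mem hy hz
      · intro hx
        refine IntermediateField.adjoin_induction k (p := fun x _ => x ∈ kU k' (genU S))
          ?_ ?_ ?_ ?_ ?_ hx
        · intro y hy
          exact IntermediateField.subset_adjoin _ _ hy
        · intro y
          have h2 : algebraMap k (Gen S) y = algebraMap k' (Gen S) (σ y) := by
            rw [ha'', RingEquiv.symm_apply_apply]
          rw [h2]
          exact (kU k' (genU S)).algebraMap_mem _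
        · intro y z _ _ hy hz
          exact add_mem hy hz
        · intro y _ hy
          exact inv_mem hy
        · intro y z _ _ hy hz
          exact mul_mem hy hz
    have hsf : (kU k' (genU S)).toSubfield = (kU k (genU S)).toSubfield := by
      ext x
      exact hmem x
    let e : (kU k' (genU S)) ≃+* (kU k (genU S)) := RingEquiv.subfieldCongr hsf
    exact Algebra.finrank_eq_of_equiv_equiv e (RingEquiv.refl (Gen S)) rfl
  · rw [h2 h]
    exact h4 (fun h' => h (hiff.1 h'))

end Pool.Agent.H56.SC
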