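import Pool.Agent.H93.SC.Targets

/-! POS (helper56): positivity of the index of generating systems. -/

open SC

namespace Pool.Agent.H56.SC

/-- translates of an algebraically independent family -/
theorem translate_indep {K L ι : Type} [Field K] [Field L] [Algebra K L] (x : ι → L)
    (hx : AlgebraicIndependent K x) (c : ι → K) :
    AlgebraicIndependent K (fun i => x i + algebraMap K L (c i)) := by
  rw [algebraicIndependent_iff]
  intro p hp
  let σ : MvPolynomial ι K →ₐ[K] MvPolynomial ι K :=
    MvPolynomial.aeval (fun i => MvPolynomial.X i + MvPolynomial.C (c i))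
  let τ : MvPolynomial ι K →ₐ[K] MvPolynomial ι K :=
    MvPolynomial.aeval (fun i => MvPolynomial.X i - MvPolynomial.C (c i))
  have h1 : (MvPolynomial.aeval x).comp σ =
      MvPolynomial.aeval (fun i => x i + algebraMap K L (c i)) := by
    apply MvPolynomial.algHom_ext
    intro i
    simp [σ]
  have h2 : τ.comp σ = AlgHom.id K _ := by
    apply MvPolynomial.algHom_ext
    intro i
    simp [σ, τ]
  have h3 : MvPolynomial.aeval x (σ p) = 0 := by
    have h4 := AlgHom.congr_fun h1 p
    rw [AlgHom.comp_apply, hp] at h4
    exact h4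
  have h5 : σ p = 0 := (algebraicIndependent_iff.1 hx) _ h3
  have h6 := AlgHom.congr_fun h2 p
  rw [AlgHom.comp_apply, h5, map_zero] at h6
  exact h6.symm

/-- a transcendental ratio -/
theorem exists_ratio {k K : Type} [Field k] [Field K] [Algebra k K] (s : Sys K)
    (hg : Generates k s) (x0 : Fin s.r) (h0 : s.s x0 ≠ 0) (ht : Algebra.trdeg k K ≠ 0) :
    ∃ x1 : Fin s.r, Transcendental k (s.s x1 / s.s x0) := by
  by_contra hcon
  push Not at hcon
  apply ht
  have hint : ∀ x, IsIntegral k (s.s x / s.s x0) := by
    intro x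
    have := hcon x
    rw [Transcendental, not_not] at this
    exact this.isIntegral
  have h1 : Algebra.IsAlgebraic k (IntermediateField.adjoin k
      {z : K | ∃ i j, z = s.s i / s.s j}) := by
    apply IntermediateField.isAlgebraic_adjoin
    rintro z ⟨i, j, rfl⟩
    have h2 : s.s i / s.s j = (s.s i / s.s x0) * (s.s j / s.s x0)⁻¹ := by
      by_cases hj : s.s j = 0
      · rw [hj, div_zero, zero_div, inv_zero, mul_zero]
      · field_simp
    rw [h2]
    exact (hint i).mul (hint j).inv
  rw [hg] at h1
  rw [trdeg_eq_zero_iff]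
  refine ⟨fun x => ?_⟩
  have h3 := h1.isAlgebraic (⟨x, trivial⟩ : (⊤ : IntermediateField k K))
  exact h3.algebraMap (A := K) (S := (⊤ : IntermediateField k K))

theorem claim (hg1b : T_G1b) (hg1c : T_G1c) {k K L : Type} [Field k] [Field K] [Algebra k K]
    [Field L] [Algebra K L] [Algebra k L] [IsScalarTower k K L] (s : Sys K) (hs : s.Nz)
    (hg : Generates k s) (ht : Algebra.trdeg k K ≠ 0) (U : Var (fun _ : Unit => s) → L)
    (hU : IsGen (fun _ : Unit => s) U) : AlgebraicIndependent k U := by
  classical
  obtain ⟨x0, h0⟩ := hs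
  obtain ⟨x1, h1⟩ := exists_ratio s hg x0 h0 ht
  set a : K := s.s x1 / s.s x0 with ha
  have hne : x1 ≠ x0 := by
    intro h
    apply h1
    rw [ha, h, div_self h0]
    exact isAlgebraic_one
  let p0 : Var (fun _ : Unit => s) := ⟨(), x0⟩
  let p1 : Var (fun _ : Unit => s) := ⟨(), x1⟩
  let d : Var (fun _ : Unit => s) → K := fun x => if x = p0 then -a else if x = p1 then 1 else 0
  have hp01 : p1 ≠ p0 := by
    intro h
    apply hne
    have h2 := congrArg (fun x : Var (fun _ : Unit => s) => (x.2 : Fin s.r)) h
    exact h2
  let U2 : Var (fun _ : Unit => s) → L := fun x => U x + algebraMap K L (d x)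
  have hK : AlgebraicIndependent K
      (fun x : {x : Var (fun _ : Unit => s) // x.2 ≠ x0} => U x.1) :=
    hU.indep (fun _ => x0) (fun _ => h0)
  have hU2 : IsGen (fun _ : Unit => s) U2 := by
    refine hg1c K Unit L _ U2 (fun _ => x0) (fun _ => h0) (fun j => ?_) ?_ ?_
    · have h2 := hU.rel j
      have h3 : ∑ i : Fin s.r, s.s i * d ⟨j, i⟩ = 0 := by
        have h4 : ∀ i : Fin s.r, d ⟨j, i⟩ = (if i = x0 then -a else 0) + (if i = x1 then 1 else 0) := by
          intro i
          change (if (⟨j, i⟩ : Var (fun _ : Unit => s)) = p0 then -a else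
            if (⟨j, i⟩ : Var (fun _ : Unit => s)) = p1 then 1 else 0) = _
          have h5 : ((⟨j, i⟩ : Var (fun _ : Unit => s)) = p0) ↔ i = x0 := by
            constructor
            · intro h
              exact congrArg (fun x : Var (fun _ : Unit => s) => (x.2 : Fin s.r)) h
            · rintro rfl
              rfl
          have h6 : ((⟨j, i⟩ : Var (fun _ : Unit => s)) = p1) ↔ i = x1 := by
            constructor
            · intro h
              exact congrArg (fun x : Var (fun _ : Unit => s) => (x.2 : Fin s.r)) h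
            · rintro rfl
              rfl
          simp only [h5, h6]
          by_cases h7 : i = x0
          · have h8 : i ≠ x1 := fun h => hne (h.symm.trans h7)
            rw [if_pos h7, if_pos h7, if_neg h8, add_zero]
          · rw [if_neg h7, if_neg h7, zero_add]
        calc ∑ i : Fin s.r, s.s i * d ⟨j, i⟩
            = ∑ i : Fin s.r, (s.s i * (if i = x0 then -a else 0) +
                s.s i * (if i = x1 then 1 else 0)) := by
              refine Finset.sum_congr rfl fun i _ => ?_
              rw [h4 i, mul_add]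
          _ = s.s x0 * (-a) + s.s x1 * 1 := by
              rw [Finset.sum_add_distrib]
              simp only [mul_ite, mul_zero, Finset.sum_ite_eq', Finset.mem_univ, if_true]
          _ = 0 := by
              rw [ha]
              field_simp
              ring
      have h9 : ∑ i : Fin s.r, algebraMap K L (s.s i) * U2 ⟨j, i⟩ =
          (∑ i : Fin s.r, algebraMap K L (s.s i) * U ⟨j, i⟩) +
            algebraMap K L (∑ i : Fin s.r, s.s i * d ⟨j, i⟩) := by
        rw [map_sum, ← Finset.sum_add_distrib]
        refine Finset.sum_congr rfl fun i _ => ?_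
        change algebraMap K L (s.s i) * (U ⟨j, i⟩ + algebraMap K L (d ⟨j, i⟩)) = _
        rw [map_mul]
        ring
      refine h9.trans ?_
      rw [h3, map_zero, add_zero]
      exact h2
    · exact translate_indep _ hK (fun x => d x.1)
    · rw [eq_top_iff, ← hU.gen, IntermediateField.adjoin_le_iff]
      rintro _ ⟨x, rfl⟩
      have h2 : U x = U2 x - algebraMap K L (d x) := by
        change U x = U x + algebraMap K L (d x) - algebraMap K L (d x)
        ring
      rw [h2]
      exact sub_mem (IntermediateField.subset_adjoin _ _ ⟨x, rfl⟩)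
        ((IntermediateField.adjoin K (Set.range U2)).algebraMap_mem _)
  obtain ⟨e, he⟩ := hg1b K Unit L L _ U U2 (fun _ => ⟨x0, h0⟩) hU hU2
  have hK' : AlgebraicIndependent K (fun x : {x : Var (fun _ : Unit => s) // x ≠ p0} => U x.1) := by
    let m : {x : Var (fun _ : Unit => s) // x ≠ p0} →
        {x : Var (fun _ : Unit => s) // x.2 ≠ x0} := fun x => ⟨x.1, fun h => x.2 (by
          obtain ⟨⟨⟨⟩, i⟩, hi⟩ := x
          change i = x0 at h
          subst h
          rfl)⟩
    have hm : Function.Injective m := by
      intro x y hxy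
      have h2 : (m x).1 = (m y).1 := congrArg Subtype.val hxy
      exact Subtype.ext h2
    exact hK.comp m hm
  rw [AlgebraicIndependent.iff_transcendental_adjoin_image p0]
  refine ⟨hK'.restrictScalars (algebraMap k K).injective, ?_⟩
  intro halg
  -- the automorphism
  let R0 : Subalgebra k L := Algebra.adjoin k (U '' {p0}ᶜ)
  let ek : L →ₐ[k] L := (e : L →ₐ[K] L).restrictScalars k
  have hek : ∀ x, ek x = e x := fun _ => rfl
  have hmap : ∀ x : R0, (ek.comp R0.val) x ∈ R0 := by
    have h2 : R0.map ek ≤ R0 := by
      change (Algebra.adjoin k (U '' {p0}ᶜ)).map ek ≤ R0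
      rw [AlgHom.map_adjoin, Algebra.adjoin_le_iff]
      rintro _ ⟨_, ⟨x, hx, rfl⟩, rfl⟩
      have hx' : x ≠ p0 := hx
      change ek (U x) ∈ R0
      rw [hek, he]
      change U x + algebraMap K L (d x) ∈ R0
      refine add_mem (Algebra.subset_adjoin ⟨x, hx, rfl⟩) ?_
      change algebraMap K L (if x = p0 then -a else if x = p1 then 1 else 0) ∈ R0
      rw [if_neg hx']
      split_ifs
      · rw [map_one]
        exact one_mem _
      · rw [map_zero]
        exact zero_mem _
    intro x
    exact h2 ⟨x.1, x.2, rfl⟩
  let f : R0 →ₐ[k] R0 := (ek.comp R0.val).codRestrict R0 hmap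
  have hf : Function.Injective f := by
    intro x y hxy
    have h2 := congrArg Subtype.val hxy
    have h3 : e x.1 = e y.1 := h2
    exact Subtype.ext (e.injective h3)
  have halg2 : IsAlgebraic R0 (e (U p0)) :=
    IsAlgebraic.ringHom_of_comp_eq (R := R0) (S := R0) (A := L) (B := L) (a := U p0) f e halg hf
      (by
        ext x
        rfl)
  have halg3 : IsAlgebraic R0 (algebraMap K L a) := by
    have h2 : algebraMap K L a = U p0 - e (U p0) := by
      rw [he]
      change algebraMap K L a = U p0 - (U p0 + algebraMap K L (if p0 = p0 then -a else _))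
      rw [if_pos rfl, map_neg]
      ring
    rw [h2]
    exact halg.sub halg2
  -- but `a` is transcendental over `R0`
  have h2 : AlgebraicIndependent k (fun _ : Unit => a) :=
    algebraicIndependent_unique_type_iff.2 h1
  have h3 := AlgebraicIndependent.sumElim_comp (R := k) (S := K) (A := L) h2 hK'
  rw [AlgebraicIndependent.iff_transcendental_adjoin_image (Sum.inr ())] at h3
  apply h3.2
  have h4 : (Sum.elim (fun x : {x : Var (fun _ : Unit => s) // x ≠ p0} => U x.1)
      (algebraMap K L ∘ fun _ : Unit => a)) '' {Sum.inr ()}ᶜ = U '' {p0}ᶜ := by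
    ext y
    constructor
    · rintro ⟨x, hx, rfl⟩
      rcases x with x | x
      · exact ⟨x.1, x.2, rfl⟩
      · exact absurd rfl hx
    · rintro ⟨x, hx, rfl⟩
      exact ⟨Sum.inl ⟨x, hx⟩, by simp, rfl⟩
  rw [h4]
  exact halg3

theorem generates_up {k K L : Type} [Field k] [Field K] [Algebra k K]
    [Field L] [Algebra K L] [Algebra k L] [IsScalarTower k K L] {V : Type} (U : V → L)
    (hU : IntermediateField.adjoin K (Set.range U) = ⊤) (t : Sys K) (hg : Generates k t) :
    Generates (kU k U) (t.up L) := by
  unfold Generates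
  set E := IntermediateField.adjoin (kU k U) {z : L | ∃ i j, z = (t.up L).s i / (t.up L).s j}
    with hE
  have hk : ∀ c : k, algebraMap k L c ∈ E := by
    intro c
    have h1 : algebraMap k L c = algebraMap (kU k U) L (algebraMap k (kU k U) c) := rfl
    rw [h1]
    exact E.algebraMap_mem _
  have hK : ∀ y : K, algebraMap K L y ∈ E := by
    intro y
    have h1 : y ∈ IntermediateField.adjoin k {z : K | ∃ i j, z = t.s i / t.s j} := by
      rw [hg]
      trivial
    refine IntermediateField.adjoin_induction k (p := fun y _ => algebraMap K L y ∈ E)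
      ?_ ?_ ?_ ?_ ?_ h1
    · rintro z ⟨i, j, rfl⟩
      apply IntermediateField.subset_adjoin
      refine ⟨i, j, ?_⟩
      rw [map_div₀]
    · intro c
      rw [← IsScalarTower.algebraMap_apply k K L]
      exact hk c
    · intro y z _ _ hy hz
      rw [map_add]
      exact add_mem hy hz
    · intro y _ hy
      rw [map_inv₀]
      exact inv_mem hy
    · intro y z _ _ hy hz
      rw [map_mul]
      exact mul_mem hy hz
  rw [eq_top_iff]
  intro x _
  have h1 : x ∈ IntermediateField.adjoin K (Set.range U) := by
    rw [hU]
    trivial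
  refine IntermediateField.adjoin_induction K (p := fun y _ => y ∈ E) ?_ ?_ ?_ ?_ ?_ h1
  · rintro _ ⟨v, rfl⟩
    have h2 : U v ∈ kU k U := IntermediateField.subset_adjoin _ _ ⟨v, rfl⟩
    have h3 : U v = algebraMap (kU k U) L ⟨U v, h2⟩ := rfl
    rw [h3]
    exact E.algebraMap_mem _
  · exact hK
  · intro y z _ _ hy hz
    exact add_mem hy hz
  · intro y _ hy
    exact inv_mem hy
  · intro y z _ _ hy hz
    exact mul_mem hy hz

theorem pos (hg1a : T_G1a) (hg1b : T_G1b) (hg1c : T_G1c) (hg2e : T_G2e) (hg2r : T_G2r)
    (hg3i : T_G3i) (hg3t : T_G3t) : T_POS := by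
  have main : ∀ n : ℕ, ∀ (k K J : Type) [Field k] [CharZero k] [Field K] [Algebra k K]
      [Algebra.EssFiniteType k K] [Fintype J] (S : J → Sys K), Fintype.card J = n →
      (∀ j, (S j).Nz) → Algebra.trdeg k K = (Fintype.card J : ℕ) →
      (∀ j, Generates k (S j)) → Idx S k ≠ 0 := by
    intro n
    induction n with
    | zero =>
      intro k K J _ _ _ _ _ _ S hJ hS ht _
      have : IsEmpty J := Fintype.card_eq_zero_iff.1 hJ
      rw [hg2e k K J S]
      rw [hJ, Nat.cast_zero, trdeg_eq_zero_iff] at ht
      have : Module.Finite k K := Algebra.finite_of_essFiniteType_of_isAlgebraic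
      exact (Module.finrank_pos (R := k) (M := K)).ne'
    | succ n ih =>
      intro k K J _ _ _ _ _ _ S hJ hS ht hG
      classical
      have hne : Nonempty J := by
        rw [← Fintype.card_pos_iff, hJ]
        omega
      obtain ⟨j0⟩ := hne
      let e : Unit ⊕ {j : J // ¬ j = j0} ≃ J :=
        (Equiv.sumCongr (Equiv.ofUnique Unit {j : J // j = j0}) (Equiv.refl _)).trans
          (Equiv.sumCompl (fun j => j = j0))
      let T : {j : J // ¬ j = j0} → Sys K := fun j => S j.1
      have hST : (fun x => S (e x)) = Sum.elim (fun _ : Unit => S j0) T := by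
        funext x
        rcases x with x | x
        · rfl
        · rfl
      have hcard : Fintype.card J = 1 + Fintype.card {j : J // ¬ j = j0} := by
        rw [← Fintype.card_congr e, Fintype.card_sum, Fintype.card_unit]
      rw [← hg2r k K J (Unit ⊕ {j : J // ¬ j = j0}) S e hS, hST]
      let s := S j0
      let U := genU (fun _ : Unit => s)
      have hU : IsGen (fun _ : Unit => s) U := hg1a K Unit (fun _ : Unit => s) (fun _ => hS j0)
      have ht0 : Algebra.trdeg k K ≠ 0 := by
        rw [ht, hJ]
        exact Nat.cast_ne_zero.2 (Nat.succ_ne_zero n)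
      have hind : AlgebraicIndependent k U :=
        claim hg1b hg1c s (hS j0) (hG j0) ht0 U hU
      rw [(hg3i k K (Gen (fun _ : Unit => s)) Unit {j : J // ¬ j = j0} (fun _ : Unit => s) T U
        (fun _ => hS j0) (fun j => hS j.1) hU).1 hind]
      obtain ⟨hess, -, htr⟩ := hg3t k K (Gen (fun _ : Unit => s)) Unit (fun _ : Unit => s) U
        (Fintype.card J) (fun _ => hS j0) hU hind ht
      have : CharZero (kU k U) := charZero_of_injective_algebraMap (algebraMap k (kU k U)).injective
      refine ih (kU k U) (Gen (fun _ : Unit => s)) {j : J // ¬ j = j0}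
        (fun j => (T j).up (Gen (fun _ : Unit => s))) (by omega) (fun j => ?_) ?_ (fun j => ?_)
      · obtain ⟨i, hi⟩ := hS j.1
        refine ⟨i, ?_⟩
        change algebraMap K (Gen (fun _ : Unit => s)) ((S j.1).s i) ≠ 0
        rwa [Ne, map_eq_zero]
      · rw [htr, Fintype.card_unit]
        congr 1
        omega
      · exact generates_up U hU.gen (T j) (hG j.1)
  intro k K J _ _ _ _ _ _ S hS ht hG
  exact main _ k K J S rfl hS ht hG

end Pool.Agent.H56.SC
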